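import Pool.Agent.H51.CST.Targets

/-!
# Coordinates in the coordinate ring of a plane curve (row CNV)
-/

set_option autoImplicit false

open Polynomial Pool.Agent.H51.CST

namespace Pool.Agent.H40.CST

noncomputable section

variable {k : Type} [Field k]

lemma aeval_xR (mu : k[X][X]) (g : k[X]) : aeval (xR mu) g = AdjoinRoot.of mu g := by
  have h : (aeval (xR mu) : k[X] →ₐ[k] AdjoinRoot mu) =
      IsScalarTower.toAlgHom k k[X] (AdjoinRoot mu) := by
    apply Polynomial.algHom_ext
    rw [aeval_X]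
    rfl
  rw [h]
  rfl

lemma crd_mk {mu : k[X][X]} (h : mu.Monic) (P : k[X][X]) (j : ℕ) :
    crd h (AdjoinRoot.mk mu P) j = (P %ₘ mu).coeff j := by
  rw [crd, AdjoinRoot.modByMonicHom_mk]

lemma mk_rep {mu : k[X][X]} (h : mu.Monic) (v : AdjoinRoot mu) :
    AdjoinRoot.mk mu (AdjoinRoot.modByMonicHom h v) = v := AdjoinRoot.mk_leftInverse h v

lemma rep_deg {d e : ℕ} (D : Dat k d e) (v : AdjoinRoot D.mu) :
    (AdjoinRoot.modByMonicHom D.monic v).degree < d := by
  obtain ⟨P, rfl⟩ := AdjoinRoot.mk_surjective v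
  rw [AdjoinRoot.modByMonicHom_mk]
  have h1 := degree_modByMonic_lt P D.monic
  rwa [degree_eq_natDegree D.monic.ne_zero, D.deg] at h1

theorem pf_CNV (hFIL : T_FIL) : T_CNV := by
  intro k _ d e D hd
  have P1 : ∀ v : AdjoinRoot D.mu, v = ∑ j ∈ Finset.range d,
      aeval (xR D.mu) (crd D.monic v j) * yR D.mu ^ j := by
    intro v
    have h1 := mk_rep D.monic v
    have hdeg := rep_deg D v
    set Q := AdjoinRoot.modByMonicHom D.monic v with hQ
    have hnd : Q.natDegree < d := by
      rcases eq_or_ne Q 0 with h0 | h0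
      · rw [h0, natDegree_zero]
        omega
      · rwa [natDegree_lt_iff_degree_lt h0]
    have h2 := as_sum_range' Q d hnd
    conv_lhs => rw [← h1, h2, map_sum]
    refine Finset.sum_congr rfl fun j _ => ?_
    rw [aeval_xR, ← C_mul_X_pow_eq_monomial, map_mul, map_pow, AdjoinRoot.mk_C, AdjoinRoot.mk_X]
    rfl
  have P5 : ∀ P : k[X][X], ∀ j, crd D.monic (AdjoinRoot.mk D.mu P) j = (P %ₘ D.mu).coeff j :=
    fun P j => crd_mk D.monic P j
  have P3 : ∀ (u v : AdjoinRoot D.mu) j,
      crd D.monic (u + v) j = crd D.monic u j + crd D.monic v j := by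
    intro u v j
    rw [crd, map_add, coeff_add]
    rfl
  refine ⟨P1, ?_, P3, ?_, P5, ?_, ?_⟩
  · intro v j hj
    exact coeff_eq_zero_of_degree_lt (lt_of_lt_of_le (rep_deg D v) (by exact_mod_cast hj))
  · intro g v j
    have h1 : aeval (xR D.mu) g * v = g • v := by
      rw [aeval_xR, Algebra.smul_def]
      rfl
    rw [crd, h1, map_smul, coeff_smul, smul_eq_mul]
    rfl
  · intro c j
    have h1 : ∑ i, aeval (xR D.mu) (c i) * yR D.mu ^ (i : ℕ) =
        AdjoinRoot.mk D.mu (∑ i, C (c i) * X ^ (i : ℕ)) := by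
      rw [map_sum]
      refine Finset.sum_congr rfl fun i _ => ?_
      rw [aeval_xR, map_mul, map_pow, AdjoinRoot.mk_C, AdjoinRoot.mk_X]
      rfl
    have h2 : (∑ i, C (c i) * X ^ (i : ℕ)) %ₘ D.mu = ∑ i, C (c i) * X ^ (i : ℕ) := by
      rw [modByMonic_eq_self_iff D.monic, degree_eq_natDegree D.monic.ne_zero, D.deg]
      exact degree_sum_fin_lt c
    rw [h1, P5, h2, finsetSum_coeff, Finset.sum_eq_single j]
    · rw [coeff_C_mul_X_pow, if_pos rfl]
    · intro i _ hij
      rw [coeff_C_mul_X_pow, if_neg]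
      intro h
      exact hij (Fin.ext h.symm)
    · intro h
      exact absurd (Finset.mem_univ j) h
  · intro n v hv
    obtain ⟨hmono, hmul, halg, -, hy, -, hae, -⟩ :=
      hFIL k (AdjoinRoot D.mu) (xR D.mu) (yR D.mu) 1 e
    have hpow : ∀ j : ℕ, yR D.mu ^ j ∈ Fil k (xR D.mu) (yR D.mu) 1 e (e * j) := by
      intro j
      induction j with
      | zero =>
        have := halg 1
        rw [map_one] at this
        rw [pow_zero, mul_zero]
        exact this
      | succ j ih =>
        rw [pow_succ, mul_add, mul_one]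
        exact hmul _ _ _ _ ih hy
    rw [P1 v]
    refine Submodule.sum_mem _ fun j hj => ?_
    have hjd := Finset.mem_range.1 hj
    have h1 := hmul _ _ _ _ (hae (crd D.monic v j) n (hv j)) (hpow j)
    exact hmono _ _ (Nat.add_le_add_left (Nat.mul_le_mul_left e hjd.le) n) h1

end

end Pool.Agent.H40.CST
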