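import Pool.Agent.H51.CST.Targets

/-!
# The pigeonhole lemma (row PIG)
-/

set_option autoImplicit false

open Polynomial Pool.Agent.H51.CST

namespace Pool.Agent.H40.CST

noncomputable section

/-- the polynomial with given coefficients -/
def pv {k : Type} [Field k] {L : ℕ} (v : Fin L → k) : k[X] := ∑ j : Fin L, C (v j) * X ^ (j : ℕ)

lemma pv_coeff {k : Type} [Field k] {L : ℕ} (v : Fin L → k) (j : Fin L) :
    (pv v).coeff j = v j := by
  rw [pv, finsetSum_coeff, Finset.sum_eq_single j]
  · rw [coeff_C_mul_X_pow, if_pos rfl]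
  · intro i _ hij
    rw [coeff_C_mul_X_pow, if_neg]
    intro h
    exact hij (Fin.ext h.symm)
  · intro h
    exact absurd (Finset.mem_univ j) h

lemma pv_deg {k : Type} [Field k] {L : ℕ} (hL : 1 ≤ L) (v : Fin L → k) :
    (pv v).natDegree ≤ L - 1 := by
  have h1 : (pv v).degree < L := degree_sum_fin_lt v
  rcases eq_or_ne (pv v) 0 with h0 | h0
  · rw [h0, natDegree_zero]
    omega
  · have := (natDegree_lt_iff_degree_lt h0).2 h1
    omega

lemma pv_add {k : Type} [Field k] {L : ℕ} (v w : Fin L → k) : pv (v + w) = pv v + pv w := by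
  rw [pv, pv, pv, ← Finset.sum_add_distrib]
  refine Finset.sum_congr rfl fun j _ => ?_
  rw [Pi.add_apply, C_add, add_mul]

lemma pv_smul {k : Type} [Field k] {L : ℕ} (r : k) (v : Fin L → k) : pv (r • v) = C r * pv v := by
  rw [pv, pv, Finset.mul_sum]
  refine Finset.sum_congr rfl fun j _ => ?_
  rw [Pi.smul_apply, smul_eq_mul, C_mul, mul_assoc]

theorem pf_PIG (hFIL : T_FIL) (hCNV : T_CNV) (hRED : T_RED) : T_PIG := by
  intro k _ d e D a c hd he hc hc0
  obtain ⟨P1, P2, P3, P4, -, P6, P7⟩ := hCNV k d e D hd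
  obtain ⟨-, hmul, -, -, -, -, -, -⟩ := hFIL k (AdjoinRoot D.mu) (xR D.mu) (yR D.mu) 1 e
  have hdom : IsDomain (AdjoinRoot D.mu) := D.dom
  have hLdef : pig a e d = d * (a + 2 * e * d + 2) := rfl
  set L := pig a e d with hL
  have hL1 : 1 ≤ L := by
    rw [hLdef]
    exact Nat.mul_pos hd (by omega)
  set T := a + L + 2 * e * d - 1 with hT
  let bb : (Fin d → Fin L → k) → AdjoinRoot D.mu := fun v =>
    ∑ i : Fin d, aeval (xR D.mu) (pv (v i)) * yR D.mu ^ (i : ℕ)
  have hbb : ∀ v, bb v = ∑ i : Fin d, aeval (xR D.mu) (pv (v i)) * yR D.mu ^ (i : ℕ) :=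
    fun v => rfl
  have hbadd : ∀ v w, bb (v + w) = bb v + bb w := by
    intro v w
    rw [hbb, hbb, hbb, ← Finset.sum_add_distrib]
    refine Finset.sum_congr rfl fun i _ => ?_
    rw [Pi.add_apply, pv_add, map_add, add_mul]
  have hbsmul : ∀ (r : k) v, bb (r • v) = aeval (xR D.mu) (C r) * bb v := by
    intro r v
    rw [hbb, hbb, Finset.mul_sum]
    refine Finset.sum_congr rfl fun i _ => ?_
    rw [Pi.smul_apply, pv_smul, map_mul, mul_assoc]
  have hcrd0 : ∀ j, crd D.monic (0 : AdjoinRoot D.mu) j = 0 := by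
    intro j
    rw [crd, map_zero, coeff_zero]
  have hbcrd : ∀ v (i : Fin d), crd D.monic (bb v) i = pv (v i) := fun v i =>
    P6 (fun i => pv (v i)) i
  have hbdeg : ∀ v j, (crd D.monic (bb v) j).natDegree ≤ L - 1 := by
    intro v j
    by_cases hj : j < d
    · have := hbcrd v ⟨j, hj⟩
      simp only at this
      rw [this]
      exact pv_deg hL1 _
    · rw [P2 _ _ (not_lt.1 hj), natDegree_zero]
      omega
  have hcb : ∀ v j, (crd D.monic (c * bb v) j).natDegree ≤ T := by
    intro v j
    have h1 := P7 a c hc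
    have h2 := P7 (L - 1) (bb v) (hbdeg v)
    have h3 := hmul _ _ _ _ h1 h2
    have h4 := hRED k d e D _ _ hd he h3 j
    have h5 : a + e * d + (L - 1 + e * d) = T := by
      rw [hT]
      have : 2 * e * d = e * d + e * d := by ring
      omega
    rwa [h5] at h4
  let f : (Fin d → Fin L → k) →ₗ[k] (Fin (d - 1) → Fin (T + 1) → k) :=
    { toFun := fun v i j => (crd D.monic (c * bb v) ((i : ℕ) + 1)).coeff j
      map_add' := by
        intro v w
        funext i j
        rw [hbadd, mul_add, P3, coeff_add]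
        rfl
      map_smul' := by
        intro r v
        funext i j
        rw [hbsmul, ← mul_assoc, mul_comm c, mul_assoc, P4, coeff_C_mul]
        rfl }
  have hf : ∀ v i j, f v i j = (crd D.monic (c * bb v) ((i : ℕ) + 1)).coeff j :=
    fun v i j => rfl
  have hfin : Module.finrank k (Fin (d - 1) → Fin (T + 1) → k) <
      Module.finrank k (Fin d → Fin L → k) := by
    have e1 : ∀ m n : ℕ, Module.finrank k (Fin m → Fin n → k) = m * n := by
      intro m n
      rw [Module.finrank_pi_fintype]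
      simp only [Module.finrank_fintype_fun_eq_card, Fintype.card_fin, Finset.sum_const,
        Finset.card_univ, smul_eq_mul]
    rw [e1, e1]
    obtain ⟨d', rfl⟩ : ∃ d', d = d' + 1 := ⟨d - 1, by omega⟩
    have hT1 : T + 1 = a + L + 2 * e * (d' + 1) := by
      rw [hT]
      omega
    rw [hT1, Nat.add_sub_cancel]
    have h1 : d' * (a + 2 * e * (d' + 1)) < L := by
      rw [hLdef]
      nlinarith
    nlinarith
  have hker := LinearMap.ker_ne_bot_of_finrank_lt hfin (f := f)
  obtain ⟨v, hv, hv0⟩ := Submodule.exists_mem_ne_zero_of_ne_bot hker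
  rw [LinearMap.mem_ker] at hv
  have hz : ∀ j, 1 ≤ j → crd D.monic (c * bb v) j = 0 := by
    intro j hj
    by_cases hjd : j < d
    · ext m
      rw [coeff_zero]
      by_cases hm : m < T + 1
      · have h1 := congrFun (congrFun hv ⟨j - 1, by omega⟩) ⟨m, hm⟩
        rw [hf] at h1
        simp only [Pi.zero_apply] at h1
        rwa [Nat.sub_add_cancel hj] at h1
      · exact coeff_eq_zero_of_natDegree_lt (lt_of_le_of_lt (hcb v j) (by omega))
    · exact P2 _ _ (not_lt.1 hjd)
  have hb0 : bb v ≠ 0 := by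
    intro h0
    apply hv0
    funext i j
    have h1 := hbcrd v i
    rw [h0, hcrd0] at h1
    have h2 := pv_coeff (v i) j
    rw [← h1, coeff_zero] at h2
    simpa using h2.symm
  have hcbeq : c * bb v = aeval (xR D.mu) (crd D.monic (c * bb v) 0) := by
    conv_lhs => rw [P1 (c * bb v)]
    rw [Finset.sum_eq_single 0]
    · rw [pow_zero, mul_one]
    · intro j _ hj
      rw [hz j (Nat.one_le_iff_ne_zero.2 hj), map_zero, zero_mul]
    · intro h
      exact absurd (Finset.mem_range.2 (by omega)) h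
  refine ⟨bb v, crd D.monic (c * bb v) 0, hb0, ?_, ?_, ?_, hcbeq⟩
  · exact P7 L (bb v) fun j => (hbdeg v j).trans (by omega)
  · intro h0
    rw [h0, map_zero] at hcbeq
    exact (mul_ne_zero hc0 hb0) hcbeq
  · exact (hcb v 0).trans (by rw [hT]; omega)

end

end Pool.Agent.H40.CST
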